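import Pool.Agent.PSV.StmtsG
import Pool.Agent.Helper34_MTQ.Bin

/-! BNP: the binomial series with explicit constants. -/

set_option autoImplicit false

namespace Pool.Agent.PSV.H84

open Finset Pool.Agent.MT100 Pool.Agent.MT100.H19 Pool.Agent.MT100.H34

/-- the coefficients, sizes -/
theorem choose_le (B : ℕ) (hB : 1 ≤ B) (r : ℚ) (hr : |r| ≤ (B : ℚ)) (k : ℕ) :
    |Ring.choose r k| ≤ ((B : ℚ) + 1) ^ k := by
  have hB1 : (1 : ℚ) ≤ B := by exact_mod_cast hB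
  induction k with
  | zero => simp
  | succ k ih =>
    have h := choose_succ_mul r k
    have hk : (0 : ℚ) < (k : ℚ) + 1 := by positivity
    have h1 : ((k : ℚ) + 1) * |Ring.choose r (k + 1)| = |r - k| * |Ring.choose r k| := by
      rw [← abs_mul, ← h, abs_mul, abs_of_pos hk]
    have h2 : |r - k| ≤ ((B : ℚ) + 1) * ((k : ℚ) + 1) := by
      have h3 := abs_sub r (k : ℚ)
      rw [Nat.abs_cast] at h3
      have h4 : (0 : ℚ) ≤ k := Nat.cast_nonneg k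
      nlinarith
    have h5 : ((k : ℚ) + 1) * |Ring.choose r (k + 1)| ≤ ((k : ℚ) + 1) * ((B : ℚ) + 1) ^ (k + 1) := by
      rw [h1]
      calc |r - k| * |Ring.choose r k| ≤ (((B : ℚ) + 1) * ((k : ℚ) + 1)) * ((B : ℚ) + 1) ^ k :=
            mul_le_mul h2 ih (abs_nonneg _) (by positivity)
        _ = ((k : ℚ) + 1) * ((B : ℚ) + 1) ^ (k + 1) := by
            rw [pow_succ]
            ring
    exact le_of_mul_le_mul_left h5 hk

theorem int_nat (κ m : ℕ) (i : ℕ) : PowerSeries.coeff i (bn κ (m : ℚ)) ∈ Zr := by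
  rw [coeff_bn, Ring.choose_natCast]
  have h1 : (-(κ : ℚ)) ∈ Zr := by
    have := int_mem (-(κ : ℤ))
    push_cast at this
    exact this
  exact Zr.mul_mem (Zr.pow_mem h1 i) (nat_mem _)

theorem int_neg (κ p q : ℕ) (hq : 0 < q) (i : ℕ) :
    (q : ℚ) ^ (2 * i) * PowerSeries.coeff i (bn κ (-((p : ℚ) / q))) ∈ Zr := by
  have h1 : (q : ℚ) ^ (2 * i) * PowerSeries.coeff i (bn κ (-((p : ℚ) / q))) =
      (κ : ℚ) ^ i * ((q : ℚ) ^ (2 * i) *
        ∏ j ∈ range i, (((j : ℚ) + (p : ℚ) / q) * ((j : ℚ) + 1)⁻¹)) := by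
    rw [coeff_bn, ← choose_neg_eq, neg_pow]
    ring
  rw [h1]
  exact Zr.mul_mem (Zr.pow_mem (nat_mem κ) i) (bin_mem hq rfl i)

theorem int_all (κ : ℕ) (r : ℚ) (i : ℕ) :
    (r.den : ℚ) ^ (2 * i) * PowerSeries.coeff i (bn κ r) ∈ Zr := by
  obtain ⟨n, hn⟩ := exists_nat_ge r
  have h0 : 0 ≤ (n : ℚ) - r := by linarith
  have hden : ((n : ℚ) - r).den = r.den := by
    have e : (n : ℚ) - r = -(r - (n : ℚ)) := by ring
    rw [e, Rat.neg_den]
    have e2 : r - (n : ℚ) = r - ((n : ℤ) : ℚ) := by push_cast; ring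
    rw [e2, Rat.sub_intCast_den]
  have h1 : (n : ℚ) - r = ((((n : ℚ) - r).num.toNat : ℕ) : ℚ) / (r.den : ℕ) := by
    have h2 : ((((n : ℚ) - r).num.toNat : ℕ) : ℚ) = ((n : ℚ) - r).num := by
      have h3 : 0 ≤ ((n : ℚ) - r).num := Rat.num_nonneg.2 h0
      have h4 : ((((n : ℚ) - r).num.toNat : ℕ) : ℤ) = ((n : ℚ) - r).num := Int.toNat_of_nonneg h3
      exact_mod_cast h4
    rw [h2, ← hden]
    exact (Rat.num_div_den _).symm
  have h2 : bn κ r = bn κ n * bn κ (-((((((n : ℚ) - r).num.toNat : ℕ) : ℚ) / (r.den : ℕ)))) := by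
    rw [← bn_add, ← h1]
    congr 1
    ring
  rw [h2, PowerSeries.coeff_mul, Finset.mul_sum]
  refine Zr.sum_mem fun x hx => ?_
  have hx1 : x.1 + x.2 = i := Finset.HasAntidiagonal.mem_antidiagonal.1 hx
  have e : (r.den : ℚ) ^ (2 * i) * (PowerSeries.coeff x.1 (bn κ (n : ℚ)) *
      PowerSeries.coeff x.2 (bn κ (-((((((n : ℚ) - r).num.toNat : ℕ) : ℚ) / (r.den : ℕ)))))) =
      (r.den : ℚ) ^ (2 * x.1) * PowerSeries.coeff x.1 (bn κ (n : ℚ)) *
        ((r.den : ℚ) ^ (2 * x.2) *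
        PowerSeries.coeff x.2 (bn κ (-((((((n : ℚ) - r).num.toNat : ℕ) : ℚ) / (r.den : ℕ)))))) := by
    rw [← hx1, mul_add, pow_add]
    ring
  rw [e]
  exact Zr.mul_mem (Zr.mul_mem (Zr.pow_mem (nat_mem _) _) (int_nat κ n x.1))
    (int_neg κ _ _ (Rat.den_pos r) x.2)

theorem bnp : BnpStmt := by
  refine ⟨3, fun B κ hB hκ r hr => ?_⟩
  have hB1 : (1 : ℚ) ≤ B := by exact_mod_cast (by omega : 1 ≤ B)
  have hB0 : 0 < B := by omega
  have hκB : (κ : ℚ) ≤ B := by exact_mod_cast hκ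
  intro k
  refine ⟨?_, r.den ^ (2 * k), pow_pos (Rat.den_pos r) _, ?_, fun i hi => ?_⟩
  · rw [coeff_bn, abs_mul, abs_pow, abs_neg, Nat.abs_cast]
    have h1 := choose_le B (by omega) r hr.2 k
    have h2 : (B : ℚ) + 1 ≤ (B : ℚ) ^ 2 := by
      have : (2 : ℚ) ≤ B := by exact_mod_cast hB
      nlinarith
    calc (κ : ℚ) ^ k * |Ring.choose r k| ≤ (B : ℚ) ^ k * ((B : ℚ) ^ 2) ^ k :=
          mul_le_mul (pow_le_pow_left₀ (Nat.cast_nonneg κ) hκB k)
            (h1.trans (pow_le_pow_left₀ (by positivity) h2 k)) (abs_nonneg _) (by positivity)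
      _ = ((B ^ 3 : ℕ) : ℚ) ^ k := by
          rw [← mul_pow]
          congr 1
          push_cast
          ring
      _ ≤ ((B ^ 3 : ℕ) : ℚ) ^ (k + 1) := by
          refine pow_le_pow_right₀ ?_ (Nat.le_succ k)
          push_cast
          exact one_le_pow₀ hB1
  · calc r.den ^ (2 * k) ≤ B ^ (2 * k) := Nat.pow_le_pow_left hr.1 _
      _ ≤ B ^ (3 * (k + 1)) := Nat.pow_le_pow_right hB0 (by omega)
      _ = (B ^ 3) ^ (k + 1) := pow_mul _ _ _
  · obtain ⟨z, hz⟩ := mem_Zr.1 (int_all κ r i)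
    refine ⟨(r.den : ℤ) ^ (2 * (k - i)) * z, ?_⟩
    push_cast
    rw [← hz]
    have h : (r.den : ℚ) ^ (2 * k) = (r.den : ℚ) ^ (2 * (k - i)) * (r.den : ℚ) ^ (2 * i) := by
      rw [← pow_add]
      congr 1
      omega
    rw [h]
    ring

end Pool.Agent.PSV.H84
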