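import Pool.Agent.PSV.StmtsS

/-! Squad PSV, row KRE: the size of the Kronecker product with the identity. -/

set_option autoImplicit false

namespace Pool.Agent.PSV.H84

open Matrix Polynomial NumberField Pool.Agent.MT100 Pool.Agent.MT100G Pool.Agent.MT100A
  Pool.Agent.MT100D Pool.Agent.Helper78_MT
open Pool.Agent.MT100G.H43 (zpH zpH_apply gtype_zero dv_mul_ite)
open Pool.Agent.MT100D.H2 (zpH_C zpH_one AA_kron)
open scoped Kronecker

variable {d : Type} [Fintype d] [DecidableEq d]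

theorem kron_sys {H K : Matrix d d (PowerSeries ℚ)} {N : Matrix d d ℤ} {δ : d → ℚ} {q : ℤ[X]}
    {B : Matrix d d ℤ[X]} (hS : GSysW H K N δ q B) (m : ℕ) (hm : 0 < m) (Z : Matrix d d ℤ)
    (hZ : ∀ i j, (m : ℚ) * AA N δ i j = Z i j) :
    GSysW (H ⊗ₖ (1 : Matrix d d (PowerSeries ℚ))) (K ⊗ₖ (1 : Matrix d d (PowerSeries ℚ)))
      (N ⊗ₖ (1 : Matrix d d ℤ) - (1 : Matrix d d ℤ) ⊗ₖ Nᵀ) (fun x : d × d => δ x.1 - δ x.2)
      (C (m : ℤ) * q) (C (m : ℤ) • (B ⊗ₖ (1 : Matrix d d ℤ[X])) -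
        q • ((1 : Matrix d d ℤ[X]) ⊗ₖ (Zᵀ.map (fun x => C x)))) := by
  have hm0 : (m : ℤ) ≠ 0 := by exact_mod_cast hm.ne'
  refine ⟨?_, ?_, ?_, mul_ne_zero (by rwa [Ne, C_eq_zero]) hS.q0, ?_, ?_, ?_⟩
  · rw [← Matrix.mul_kronecker_mul, hS.inv, one_mul, Matrix.one_kronecker_one]
  · have hc : Commute (N ⊗ₖ (1 : Matrix d d ℤ)) ((1 : Matrix d d ℤ) ⊗ₖ Nᵀ) := by
      show _ * _ = _ * _
      rw [← Matrix.mul_kronecker_mul, ← Matrix.mul_kronecker_mul, one_mul, mul_one, one_mul, mul_one]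
    refine hc.isNilpotent_sub ?_ ?_
    · obtain ⟨m, hm⟩ := hS.nil
      refine ⟨m, ?_⟩
      have : ∀ t : ℕ, (N ⊗ₖ (1 : Matrix d d ℤ)) ^ t = (N ^ t) ⊗ₖ (1 : Matrix d d ℤ) := by
        intro t
        induction t with
        | zero => rw [pow_zero, pow_zero, Matrix.one_kronecker_one]
        | succ t ih => rw [pow_succ, ih, ← Matrix.mul_kronecker_mul, pow_succ, mul_one]
      rw [this, hm, Matrix.zero_kronecker]
    · obtain ⟨m, hm⟩ := hS.nil
      refine ⟨m, ?_⟩
      have : ∀ t : ℕ, ((1 : Matrix d d ℤ) ⊗ₖ Nᵀ) ^ t = (1 : Matrix d d ℤ) ⊗ₖ (Nᵀ ^ t) := by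
        intro t
        induction t with
        | zero => rw [pow_zero, pow_zero, Matrix.one_kronecker_one]
        | succ t ih => rw [pow_succ, ih, ← Matrix.mul_kronecker_mul, pow_succ, mul_one]
      rw [this, ← Matrix.transpose_pow, hm, Matrix.transpose_zero, Matrix.kronecker_zero]
  · rintro ⟨i, j⟩ ⟨k, l⟩ h
    rw [Matrix.sub_apply, Matrix.kronecker_apply, Matrix.kronecker_apply, Matrix.transpose_apply,
      Matrix.one_apply, Matrix.one_apply] at h
    show δ i - δ j = δ k - δ l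
    by_cases h1 : i = k
    · subst h1
      by_cases h2 : j = l
      · subst h2
        rfl
      · rw [if_neg h2, if_pos rfl, mul_zero, zero_sub, one_mul, neg_ne_zero] at h
        rw [hS.com _ _ h]
    · rw [if_neg h1, zero_mul, sub_zero] at h
      by_cases h2 : j = l
      · subst h2
        rw [if_pos rfl, mul_one] at h
        rw [hS.com _ _ h]
      · rw [if_neg h2, mul_zero] at h
        exact absurd rfl h
  · set Bz : Matrix d d (PowerSeries ℚ) := B.map zp with hBz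
    set Az : Matrix d d (PowerSeries ℚ) := (AA N δ).map (fun x => PowerSeries.C x) with hAz
    set c : PowerSeries ℚ := PowerSeries.C (m : ℚ) with hc
    have hq : zp (C (m : ℤ) * q) = c * zp q := by
      rw [← zpH_apply, map_mul, zpH_C, zpH_apply, hc]
      norm_num
    have h1 : (H ⊗ₖ (1 : Matrix d d (PowerSeries ℚ))).map dv =
        (H.map dv) ⊗ₖ (1 : Matrix d d (PowerSeries ℚ)) := by
      ext ⟨i, j⟩ ⟨k, l⟩ : 2
      rw [Matrix.map_apply, Matrix.kronecker_apply, Matrix.kronecker_apply, Matrix.map_apply,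
        Matrix.one_apply, dv_mul_ite]
    have h2 : (C (m : ℤ) • (B ⊗ₖ (1 : Matrix d d ℤ[X])) -
        q • ((1 : Matrix d d ℤ[X]) ⊗ₖ (Zᵀ.map (fun x => C x)))).map zp =
        c • (Bz ⊗ₖ (1 : Matrix d d (PowerSeries ℚ))) -
          (c * zp q) • ((1 : Matrix d d (PowerSeries ℚ)) ⊗ₖ Azᵀ) := by
      ext ⟨i, j⟩ ⟨k, l⟩ : 1
      simp only [Matrix.map_apply, Matrix.sub_apply, Matrix.smul_apply, Matrix.kronecker_apply,
        Matrix.transpose_apply, smul_eq_mul, ← zpH_apply, map_sub, map_mul, hBz, hAz]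
      rw [zpH_one, zpH_one, zpH_C, zpH_C, ← hZ l j,
        map_mul (PowerSeries.C : ℚ →+* PowerSeries ℚ), ← hc]
      have h3 : (PowerSeries.C (((m : ℤ) : ℤ) : ℚ) : PowerSeries ℚ) = c := by
        rw [hc]
        norm_num
      rw [h3]
      ring
    have h3 : (AA (N ⊗ₖ (1 : Matrix d d ℤ) - (1 : Matrix d d ℤ) ⊗ₖ Nᵀ)
        (fun x : d × d => δ x.1 - δ x.2)).map (fun x => PowerSeries.C x) =
        Az ⊗ₖ (1 : Matrix d d (PowerSeries ℚ)) - (1 : Matrix d d (PowerSeries ℚ)) ⊗ₖ Azᵀ := by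
      have h4 : ∀ a b : d, (PowerSeries.C ((1 : Matrix d d ℚ) a b) : PowerSeries ℚ) =
          (1 : Matrix d d (PowerSeries ℚ)) a b := by
        intro a b
        rw [Matrix.one_apply, Matrix.one_apply]
        split_ifs
        · exact map_one _
        · exact map_zero _
      rw [AA_kron]
      ext ⟨i, j⟩ ⟨k, l⟩ : 2
      simp only [Matrix.map_apply, Matrix.sub_apply, Matrix.kronecker_apply,
        Matrix.transpose_apply, hAz]
      rw [map_sub, map_mul, map_mul, h4, h4]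
    rw [hq, h1, h2, h3]
    have h5 : Bz ⊗ₖ (1 : Matrix d d (PowerSeries ℚ)) * H ⊗ₖ (1 : Matrix d d (PowerSeries ℚ)) =
        (Bz * H) ⊗ₖ (1 : Matrix d d (PowerSeries ℚ)) := by
      rw [← Matrix.mul_kronecker_mul, one_mul]
    have h6 : (1 : Matrix d d (PowerSeries ℚ)) ⊗ₖ Azᵀ * H ⊗ₖ (1 : Matrix d d (PowerSeries ℚ)) =
        H ⊗ₖ Azᵀ := by
      rw [← Matrix.mul_kronecker_mul, one_mul, mul_one]
    have h7 : H ⊗ₖ (1 : Matrix d d (PowerSeries ℚ)) * Az ⊗ₖ (1 : Matrix d d (PowerSeries ℚ)) =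
        (H * Az) ⊗ₖ (1 : Matrix d d (PowerSeries ℚ)) := by
      rw [← Matrix.mul_kronecker_mul, one_mul]
    have h8 : H ⊗ₖ (1 : Matrix d d (PowerSeries ℚ)) * (1 : Matrix d d (PowerSeries ℚ)) ⊗ₖ Azᵀ =
        H ⊗ₖ Azᵀ := by
      rw [← Matrix.mul_kronecker_mul, one_mul, mul_one]
    have h9 : (zp q * PowerSeries.X) • ((H.map dv) ⊗ₖ (1 : Matrix d d (PowerSeries ℚ))) =
        (Bz * H) ⊗ₖ (1 : Matrix d d (PowerSeries ℚ)) -
          zp q • ((H * Az) ⊗ₖ (1 : Matrix d d (PowerSeries ℚ))) := by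
      rw [← Matrix.smul_kronecker, hS.ode, ← hBz, ← hAz, sub_eq_add_neg (Bz * H),
        Matrix.add_kronecker, ← neg_smul, Matrix.smul_kronecker, neg_smul, ← sub_eq_add_neg]
    rw [mul_assoc c, mul_smul c, h9, sub_mul, mul_sub, Matrix.smul_mul, Matrix.smul_mul, h5, h6, h7,
      h8, smul_sub, smul_sub]
    simp only [mul_smul]
    abel
  · rintro ⟨i, j⟩ ⟨k, l⟩
    rw [Matrix.kronecker_apply, Matrix.one_apply]
    split_ifs
    · rw [mul_one]
      exact hS.gH i k
    · rw [mul_zero]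
      exact gtype_zero
  · rintro ⟨i, j⟩ ⟨k, l⟩
    rw [Matrix.kronecker_apply, Matrix.one_apply]
    split_ifs
    · rw [mul_one]
      exact hS.gK i k
    · rw [mul_zero]
      exact gtype_zero

theorem gtc_mono {B B' : ℕ} (h : B ≤ B') {f : PowerSeries ℚ} (hf : GTC B f) :
    GTC B' f := by
  intro k
  obtain ⟨h1, D, hD, h2, h3⟩ := hf k
  have h4 : B ^ (k + 1) ≤ B' ^ (k + 1) := Nat.pow_le_pow_left h _
  refine ⟨h1.trans ?_, D, hD, h2.trans h4, h3⟩
  exact_mod_cast h4

theorem gtc_zero {B : ℕ} (hB : 1 ≤ B) : GTC B 0 := by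
  intro k
  have h4 : 1 ≤ B ^ (k + 1) := Nat.one_le_pow _ _ hB
  refine ⟨?_, 1, one_pos, h4, fun i _ => ⟨0, ?_⟩⟩
  · rw [map_zero, abs_zero]
    positivity
  · rw [map_zero, mul_zero, Int.cast_zero]

/-- the common denominator with bounds -/
theorem den_bd {n B : ℕ} (hB : 2 ≤ B) {N : Matrix d d ℤ} {δ : d → ℚ} (hc : Fintype.card d ≤ n)
    (hN : ∀ i j, |N i j| ≤ (B : ℤ)) (hδ : ∀ i, RB B (δ i)) :
    ∃ m : ℕ, 0 < m ∧ m ≤ B ^ n ∧ ∃ Z : Matrix d d ℤ,
      (∀ i j, (m : ℚ) * AA N δ i j = Z i j) ∧ ∀ i j, |Z i j| ≤ (B : ℤ) ^ (n + 2) := by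
  have h0 : 0 < ∏ i, (δ i).den := Finset.prod_pos fun i _ => (δ i).pos
  have h1 : ∏ i, (δ i).den ≤ B ^ n := by
    calc ∏ i, (δ i).den ≤ ∏ _i : d, B := Finset.prod_le_prod' fun i _ => (hδ i).1
      _ = B ^ Fintype.card d := by rw [Finset.prod_const, Finset.card_univ]
      _ ≤ B ^ n := Nat.pow_le_pow_right (by omega) hc
  have h2 : ∀ i, ∃ z : ℤ, ((∏ i, (δ i).den : ℕ) : ℚ) * δ i = z := by
    intro i
    obtain ⟨c, hc⟩ := Finset.dvd_prod_of_mem (fun i => (δ i).den) (Finset.mem_univ i)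
    refine ⟨(c : ℤ) * (δ i).num, ?_⟩
    rw [hc, Nat.cast_mul, Int.cast_mul, Int.cast_natCast, mul_comm ((δ i).den : ℚ), mul_assoc,
      Rat.den_mul_eq_num]
  choose z hz using h2
  have hZ : ∀ i j, ((∏ i, (δ i).den : ℕ) : ℚ) * AA N δ i j
      = (((∏ i, (δ i).den : ℕ) : ℤ) * N i j + if i = j then z i else 0 : ℤ) := by
    intro i j
    rw [AA, Matrix.add_apply, Matrix.map_apply, Matrix.diagonal_apply, mul_add, Int.cast_add,
      Int.cast_mul, Int.cast_natCast]
    congr 1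
    split_ifs
    · exact hz i
    · rw [mul_zero, Int.cast_zero]
  refine ⟨∏ i, (δ i).den, h0, h1, Matrix.of (fun i j => ((∏ i, (δ i).den : ℕ) : ℤ) * N i j
    + if i = j then z i else 0), hZ, ?_⟩
  intro i j
  have h3 : |((∏ i, (δ i).den : ℕ) : ℚ) * AA N δ i j| ≤ (B : ℚ) ^ (n + 2) := by
    rw [abs_mul, Nat.abs_cast]
    have h4 : |AA N δ i j| ≤ 2 * (B : ℚ) := by
      rw [AA, Matrix.add_apply, Matrix.map_apply, Matrix.diagonal_apply]
      refine (abs_add_le _ _).trans ?_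
      have h5 : |((N i j : ℤ) : ℚ)| ≤ B := by exact_mod_cast hN i j
      have h6 : |if i = j then δ i else 0| ≤ (B : ℚ) := by
        split_ifs
        · exact (hδ i).2
        · rw [abs_zero]
          positivity
      linarith
    have h7 : ((∏ i, (δ i).den : ℕ) : ℚ) ≤ (B : ℚ) ^ n := by exact_mod_cast h1
    have h8 : (2 : ℚ) ≤ B := by exact_mod_cast hB
    calc ((∏ i, (δ i).den : ℕ) : ℚ) * |AA N δ i j| ≤ (B : ℚ) ^ n * (2 * B) :=
          mul_le_mul h7 h4 (abs_nonneg _) (by positivity)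
      _ ≤ (B : ℚ) ^ n * (B * B) :=
          mul_le_mul_of_nonneg_left (mul_le_mul_of_nonneg_right h8 (by positivity))
            (by positivity)
      _ = (B : ℚ) ^ (n + 2) := by ring
  rw [hZ i j] at h3
  exact_mod_cast h3

theorem kre : KreStmt := by
  intro n
  refine ⟨n ^ 2 + n, n + 4, ?_⟩
  intro d _ _ H K N δ q Bm B hS hone
  have hB := hS.two
  have hB1 : 1 ≤ B := by omega
  have hBa : B ≤ B ^ (n + 4) := Nat.le_self_pow (by omega) B
  have hBz : (2 : ℤ) ≤ B := by exact_mod_cast hB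
  obtain ⟨m, hm, hmB, Z, hZ, hZB⟩ := den_bd hB hS.card hS.hN hS.hδ
  have hmz : (m : ℤ) ≤ (B : ℤ) ^ n := by exact_mod_cast hmB
  have hm0 : (0 : ℤ) ≤ m := Int.natCast_nonneg m
  refine ⟨C (m : ℤ) * q, C (m : ℤ) • (Bm ⊗ₖ (1 : Matrix d d ℤ[X])) -
    q • ((1 : Matrix d d ℤ[X]) ⊗ₖ (Zᵀ.map (fun x => C x))), ?_, ?_⟩
  · refine ⟨kron_sys hS.sys m hm Z hZ, hB.trans hBa, ?_, ?_, ?_, ?_, ?_, ?_, ?_⟩
    · rw [Fintype.card_prod]
      have := Nat.mul_le_mul hS.card hS.card
      nlinarith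
    · refine ⟨(Polynomial.natDegree_C_mul_le _ _).trans (hS.hq.1.trans (by omega)), ?_⟩
      intro k
      rw [Polynomial.coeff_C_mul, abs_mul, abs_of_nonneg hm0]
      have h1 := hS.hq.2 k
      calc (m : ℤ) * |q.coeff k| ≤ (B : ℤ) ^ n * B :=
            mul_le_mul hmz h1 (abs_nonneg _) (by positivity)
        _ = (B : ℤ) ^ (n + 1) := by ring
        _ ≤ (B : ℤ) ^ (n + 4) := pow_le_pow_right₀ (by omega) (by omega)
        _ = ((B ^ (n + 4) : ℕ) : ℤ) := by push_cast; ring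
    · rintro ⟨i, j⟩ ⟨k, l⟩
      have e : (C (m : ℤ) • (Bm ⊗ₖ (1 : Matrix d d ℤ[X])) -
          q • ((1 : Matrix d d ℤ[X]) ⊗ₖ (Zᵀ.map (fun x => C x)))) (i, j) (k, l)
          = C (if j = l then (m : ℤ) else 0) * Bm i k
            - C (if i = k then Z l j else 0) * q := by
        rw [Matrix.sub_apply, Matrix.smul_apply, Matrix.smul_apply, Matrix.kronecker_apply,
          Matrix.kronecker_apply, Matrix.map_apply, Matrix.transpose_apply, Matrix.one_apply,
          Matrix.one_apply, smul_eq_mul, smul_eq_mul]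
        congr 1
        · split_ifs
          · ring
          · simp
        · split_ifs
          · ring
          · simp
      rw [e]
      have h1 := hS.hM i k
      have h2 := hS.hq
      constructor
      · refine (Polynomial.natDegree_sub_le _ _).trans (max_le ?_ ?_)
        · exact (Polynomial.natDegree_C_mul_le _ _).trans (h1.1.trans (by omega))
        · exact (Polynomial.natDegree_C_mul_le _ _).trans (h2.1.trans (by omega))
      · intro t
        rw [Polynomial.coeff_sub, Polynomial.coeff_C_mul, Polynomial.coeff_C_mul]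
        have h3 : |(if j = l then (m : ℤ) else 0) * (Bm i k).coeff t| ≤ (B : ℤ) ^ n * B := by
          rw [abs_mul]
          refine mul_le_mul ?_ (h1.2 t) (abs_nonneg _) (by positivity)
          split_ifs
          · rwa [abs_of_nonneg hm0]
          · rw [abs_zero]
            positivity
        have h4 : |(if i = k then Z l j else 0) * q.coeff t| ≤ (B : ℤ) ^ (n + 2) * B := by
          rw [abs_mul]
          refine mul_le_mul ?_ (h2.2 t) (abs_nonneg _) (by positivity)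
          split_ifs
          · exact hZB l j
          · rw [abs_zero]
            positivity
        have h5 : (B : ℤ) ^ n * B ≤ (B : ℤ) ^ (n + 2) * B :=
          mul_le_mul_of_nonneg_right (pow_le_pow_right₀ (by omega) (by omega)) (by positivity)
        calc _ ≤ |(if j = l then (m : ℤ) else 0) * (Bm i k).coeff t|
              + |(if i = k then Z l j else 0) * q.coeff t| := abs_sub _ _
          _ ≤ 2 * ((B : ℤ) ^ (n + 2) * B) := by linarith
          _ ≤ B * ((B : ℤ) ^ (n + 2) * B) := mul_le_mul_of_nonneg_right hBz (by positivity)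
          _ = ((B ^ (n + 4) : ℕ) : ℤ) := by push_cast; ring
    · rintro ⟨i, j⟩ ⟨k, l⟩
      rw [Matrix.sub_apply, Matrix.kronecker_apply, Matrix.kronecker_apply,
        Matrix.transpose_apply, Matrix.one_apply, Matrix.one_apply]
      have h1 : |N i k * (if j = l then 1 else 0)| ≤ (B : ℤ) := by
        split_ifs
        · rw [mul_one]
          exact hS.hN i k
        · rw [mul_zero, abs_zero]
          positivity
      have h2 : |(if i = k then 1 else 0) * N l j| ≤ (B : ℤ) := by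
        split_ifs
        · rw [one_mul]
          exact hS.hN l j
        · rw [zero_mul, abs_zero]
          positivity
      calc _ ≤ |N i k * (if j = l then 1 else 0)| + |(if i = k then 1 else 0) * N l j| :=
            abs_sub _ _
        _ ≤ 2 * (B : ℤ) := by linarith
        _ ≤ B * B := mul_le_mul_of_nonneg_right hBz (by positivity)
        _ = (B : ℤ) ^ 2 := by ring
        _ ≤ (B : ℤ) ^ (n + 4) := pow_le_pow_right₀ (by omega) (by omega)
        _ = ((B ^ (n + 4) : ℕ) : ℤ) := by push_cast; ring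
    · rintro ⟨i, j⟩
      have h1 := hS.hδ i
      have h2 := hS.hδ j
      have h3 : B * B ≤ B ^ (n + 4) := by
        calc B * B = B ^ 2 := by ring
          _ ≤ B ^ (n + 4) := Nat.pow_le_pow_right (by omega) (by omega)
      constructor
      · refine le_trans (Nat.le_of_dvd ?_ (Rat.sub_den_dvd (δ i) (δ j))) ?_
        · exact Nat.mul_pos (δ i).pos (δ j).pos
        · exact (Nat.mul_le_mul h1.1 h2.1).trans h3
      · have h4 : (2 : ℚ) ≤ B := by exact_mod_cast hB
        calc |δ i - δ j| ≤ |δ i| + |δ j| := abs_sub _ _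
          _ ≤ 2 * (B : ℚ) := by linarith [h1.2, h2.2]
          _ ≤ B * B := mul_le_mul_of_nonneg_right h4 (by positivity)
          _ ≤ ((B ^ (n + 4) : ℕ) : ℚ) := by exact_mod_cast h3
    · rintro ⟨i, j⟩ ⟨k, l⟩
      rw [Matrix.kronecker_apply, Matrix.one_apply]
      split_ifs
      · rw [mul_one]
        exact gtc_mono hBa (hS.gH i k)
      · rw [mul_zero]
        exact gtc_zero (hB1.trans hBa)
    · rintro ⟨i, j⟩ ⟨k, l⟩
      rw [Matrix.kronecker_apply, Matrix.one_apply]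
      split_ifs
      · rw [mul_one]
        exact gtc_mono hBa (hS.gK i k)
      · rw [mul_zero]
        exact gtc_zero (hB1.trans hBa)
  · rintro ⟨i, j⟩ ⟨k, l⟩
    rw [Matrix.kronecker_apply, map_mul, hone, Matrix.one_apply]
    simp only [Prod.mk.injEq]
    by_cases h1 : i = k <;> by_cases h2 : j = l <;> simp [h1, h2]

end Pool.Agent.PSV.H84
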